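import Pool.Agent.H35.P4I.P4
import Pool.Agent.H56.ASM.Sk7

/-!
# The local theorem P4I for the cells of the fattest boxes

`QI R n c`: the conditions for the slopes as in `QT`, the upper bound only for the target: the
coordinates before the target may be arbitrarily fast. `micX_I`: the local theorem, from `P4IStmt1`.
`tol_micI`: for small tolerances.
-/

set_option autoImplicit false

namespace Pool.STAT

open Finset MvPolynomial
open Pool.Agent.H49.Ent Pool.Agent.H32.Dense Pool.STK Pool.KS3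
open Pool.BFL (Pb)
open Pool.P4 (GnL NBT NewLabT NFc1 sl thd)
open Pool.P4I (P4IStmt1)

/-- **The slopes of the cells of the fattest boxes, with ties and faster coordinates**, `R` are the
rough coordinates. -/
def QI (R : ℕ → Prop) (n : ℕ) (c : ℝ) : CondN := fun lam gam =>
  (∀ l, 1 ≤ l → l ≤ n → lam l = 1) ∧
    (∀ l, 1 ≤ l → l < n → ¬ R l → min (gam n) 1 ≤ gam l) ∧ gam n ≤ 1 - c + min (gam n) 1

theorem qI_cl (R : ℕ → Prop) {n : ℕ} (hn : 1 ≤ n) (c : ℝ) : (QI R n c).Cl n := by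
  refine (CondN.Cl.all fun l => CondN.Cl.imp fun h1 => CondN.Cl.imp fun h2 =>
    CondN.Cl.lam_eq h1 h2 1).and ((CondN.Cl.all fun l => CondN.Cl.imp fun h1 =>
    CondN.Cl.imp fun h2 => CondN.Cl.imp fun _ => ⟨?_, fun {lam gam lam' gam'} _ k2 h3 => ?_⟩).and
    ⟨?_, fun {lam gam lam' gam'} _ k2 h3 => ?_⟩)
  · exact isClosed_le (((continuous_apply n).comp continuous_snd).min continuous_const)
      ((continuous_apply l).comp continuous_snd)
  · rw [k2 l h1 (by omega), k2 n hn le_rfl]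
    exact h3
  · exact isClosed_le ((continuous_apply n).comp continuous_snd)
      (continuous_const.add (((continuous_apply n).comp continuous_snd).min continuous_const))
  · rw [k2 n hn le_rfl]
    exact h3

/-- **The local theorem for the fattest boxes, with ties and faster coordinates**: `δ` depends on
`n`, `B` and a lower bound of the deficit. -/
theorem micX_I (hP : P4IStmt1) {n B₀ : ℕ} (hn : 1 ≤ n) (hB₀ : 1 ≤ B₀) {h₀ : ℝ}
    (hh₀ : 0 < h₀) : ∃ δ : ℝ, 0 < δ ∧ ∀ (K A : ℕ) (R : ℕ → Prop) (h c : ℝ), h₀ ≤ h → h ≤ 1 →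
      0 < c → MicX (XP4 K A R (h + δ)) (QI R n c) (fun B => B = B₀) n K h := by
  obtain ⟨δ, hδ, H⟩ := hP n B₀ h₀ hn hB₀ hh₀
  refine ⟨δ, hδ, fun K A R h c hh hh1 hc B lam gam C₁ hB hBB hlam hgam hgn hC₁ hQ => ?_⟩
  subst hBB
  obtain ⟨M, Q, K', η', κ, ϖ, z₀, a1, a2, a3, a4, H⟩ := H K A gam R C₁ h hh hh1 hgam hgn
    (by
      unfold thd
      have := hQ.2.2
      linarith) (fun l hl => by
      by_contra h1
      have h2 := hQ.2.1 l hl.1 hl.2.1 h1
      have h3 := hl.2.2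
      unfold thd at h3
      linarith) hC₁
  refine ⟨M, Q, K', η', κ, ϖ, z₀, a1, a2, a3, fun J a₀ w₀ z D q hz hO hN hX => ?_⟩
  obtain ⟨x1, x2, U, x3, x4⟩ := hX
  obtain ⟨l, l1, l2, l3, i, hi, j, hj, h3⟩ := H lam J a₀ w₀ z D q U hQ.1 hz hO hN x2 x1 x3
  exact x4 l l1 l2 (l3.imp id fun h => h.1) i hi j hj h3

end Pool.STAT

namespace Pool.ASM

open MeasureTheory Set Filter Topology
open Pool.Agent.H49.Ent Pool.Agent.H32.Dense Pool.STK Pool.KA Pool.KSAT Pool.K2S Pool.PB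
open Pool.GEN Pool.S6C Pool.GRW Pool.PKG Pool.STAT
open Pool.P4 (NFc1 P4Stmt1)
open Pool.P4I (P4IStmt1)
open Pool.MIC6

/-- **The local theorem P4I**, for small tolerances and for all numbers slightly larger than the
maximal deficit. -/
theorem tol_micI {n B₀ : ℕ} (hn : 1 ≤ n) (hB₀ : 1 ≤ B₀) :
    Tol fun η => ∀ D, 0 < D → D ≤ 1 → ∃ x₀ : ℝ, (1 + η D) * D < x₀ ∧ ∀ x : ℝ, x ≤ x₀ →
      ∀ (K : ℕ) (R : ℕ → Prop) (c : ℝ), 0 < c →
        MicX (XP4 K 1 R x) (QI R n c) (fun B => B = B₀) n K ((1 - η D) * D) := by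
  have h0 : Tol fun η => ∀ D, 0 < D → D ≤ 1 → ∃ x₀ : ℝ, (1 + η D) * D < x₀ ∧
      ∀ (K : ℕ) (R : ℕ → Prop) (c : ℝ), 0 < c →
        MicX (XP4 K 1 R x₀) (QI R n c) (fun B => B = B₀) n K ((1 - η D) * D) := by
    refine Tol.ofD (Q := fun D y => ∃ x : ℝ, (1 + y) * D < x ∧
      ∀ (K : ℕ) (R : ℕ → Prop) (c : ℝ), 0 < c →
        MicX (XP4 K 1 R x) (QI R n c) (fun B => B = B₀) n K ((1 - y) * D)) fun D hD hD1 => ?_
    obtain ⟨δ, hδ, h1⟩ := micX_I Pool.P4I.p4i_1 hn hB₀ (half_pos hD)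
    refine ⟨min (1 / 2) (δ / (4 * D)), lt_min (by norm_num) (by positivity),
      fun y hy hy' => ?_⟩
    have hy1 : y ≤ 1 / 2 := hy'.trans (min_le_left _ _)
    have hy2 : y ≤ δ / (4 * D) := hy'.trans (min_le_right _ _)
    rw [le_div_iff₀ (by positivity)] at hy2
    exact ⟨(1 - y) * D + δ, by nlinarith, fun K R c hc =>
      h1 K 1 R ((1 - y) * D) c (by nlinarith) (by nlinarith) hc⟩
  refine h0.mono fun η h D hD hD1 => ?_
  obtain ⟨x₀, h1, h2⟩ := h D hD hD1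
  refine ⟨x₀, h1, fun x hx K R c hc => ?_⟩
  exact (h2 K R c hc).mono (fun _ _ hX => ⟨hX.1, nFc_mono hX.2.1 hx le_rfl, hX.2.2⟩)
    (fun _ _ h => h) fun _ h => h

end Pool.ASM
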