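import Pool.Agent.H56.NB.Nob
import Pool.Agent.H14.NBI.Mic

/-!
# Ties with faster coordinates

`CovI`: the windows with a tie which are covered by P4, P5 and P4I: in addition to `CovW` the windows
where the slope of the target is smaller than `3` (the coordinates before the target may be arbitrarily
fast) and at most one coordinate is not thin.
`kpRg`: windows where all coordinates are rough, with a property of the slopes; `nok_Rg`: no boxes,
from a local theorem. `nok_RI`, `nok_CI`: no boxes, by P4I. `noB_PI`: no boxes at the windows with a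
tie covered by `CovI`.
-/

set_option autoImplicit false

namespace Pool.PKG

open MeasureTheory Set Filter Topology
open Pool.Agent.H49.Ent Pool.Agent.H32.Dense Pool.STK Pool.KA Pool.KSAT Pool.K2S Pool.PB
open Pool.GEN Pool.S6C Pool.STAT Pool.CHT Pool.GRW Pool.ONE Pool.STA
open Pool.LBT (LSys ThrOf)
open Pool.LEV (Law Lv)
open Pool.ALL (RateOf)
open Pool.TOP (TopS)
open Pool.RTS (iso Diag)
open Pool.STR (NumI CellD RowD NfB AffB Rle Nw ThinAt SteepAt StaAt)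
open Pool.ISO (ChI)
open Pool.CHB (chsysB)
open Pool.STAT.CLO Pool.MIC6
open Pool.P4 (NFc1)

variable {n : ℕ} {hn : 2 ≤ n} {S : PCl n} {P : ℝ → ℝ → ℝ} {rr : ℝ → ℝ}
  {P' : ℕ → List (Fin n) × Fin n → ℝ → ℝ → ℝ} {Λ : Finset (Fin n) → Fin n → ℝ → ℝ → ℝ}
  {PB : ℕ → List (Fin n) × Fin n → ℝ → ℝ → ℝ}

/-- **The windows with a tie which are covered by P4, P5 and P4I.** -/
def CovI (hn : 2 ≤ n) (P : ℝ → ℝ → ℝ) (P' PB : ℕ → List (Fin n) × Fin n → ℝ → ℝ → ℝ) (o : Od n)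
    (g : ℝ) : Prop :=
  CovW hn P P' PB o g ∨ (slN hn P P' o (n - 1) g < 3 ∧
    ∃ l₀ < n - 1, ∀ l < n - 1, l ≠ l₀ → ThN hn P P' PB o l g)

variable (H : PkT hn S P rr P' Λ PB) {hTop : TopS n} {hF : FZX (n - 1)} {h : ℝ}
  {ρ' : ℝ → ℝ} {hρ : Rle rr ρ'}

/-- **The windows where all coordinates are rough**, `As` is a property of the slopes. -/
noncomputable def kpRg (H : PkT hn S P rr P' Λ PB) (hTop : TopS n) (hF : FZX (n - 1))
    (hρ : Rle rr ρ') (h : ℝ) (As : ℝ → Od n → ℝ → Prop) :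
    NumI.KndP ((H.nk hTop hF).chg hρ H.up) Unit where
  A c _ o g := As c o g
  Φ _ o g r d := KnT hn P rr P' h (fun o l => bet (PB o.2) (cc hn o.1.1) l)
    (fun o l => bet (P' o.2) (cc hn o.1.1) l) Finset.univ (show Od n from o) g r d
  mono hd h := h.mono hd

theorem inR_univ {l : ℕ} (hl : l < n - 1) : InR (Finset.univ : Finset (Fin n)) l :=
  ⟨⟨l, by omega⟩, Finset.mem_univ _, rfl⟩

theorem kpRg_at {As : ℝ → Od n → ℝ → Prop} {o : Od n} {g h : ℝ}
    (hA : ∃ c : ℝ, 0 < c ∧ ∀ c' : ℝ, 0 < c' → c' ≤ c → As c' o g)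
    (hrow : Sml fun r d => NfB rr h d (P g g - r) (P g g + 3 * r))
    (hN : ∀ l < n - 1, Sml fun r d => Box7 g r fun a w =>
      bet (PB o.2) (cc hn o.1.1) l a w ≤ dgN hn P P' o l w + (a - w) + d) :
    (kpRg H hTop hF hρ h As).At () (show ((H.nk hTop hF).chg hρ H.up).O from o) g := by
  obtain ⟨c, hc, hA⟩ := hA
  refine ⟨c, hc, hA, ?_⟩
  have k2 : Sml fun r d => ∀ l ∈ Finset.range (n - 1), Box7 g r fun a w =>
      bet (PB o.2) (cc hn o.1.1) l a w ≤ dgN hn P P' o l w + (a - w) + d := Sml.all _ fun l hl =>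
    hN l (Finset.mem_range.1 hl)
  exact (hrow.and k2).mono fun r d _ h => ⟨h.1, fun l hl _ => h.2 l (Finset.mem_range.2 hl),
    fun l hl hl' => absurd (inR_univ hl) hl'⟩

variable {H} in
/-- **No boxes, all coordinates are rough**, from a local theorem. -/
theorem nok_Rg {x' : ℝ} {As : ℝ → Od n → ℝ → Prop} {Qc : ℝ → ℝ → CondN}
    (hQc : ∀ c β, (Qc c β).Cl (n - 1 + 1))
    (hP : ∀ (K' : ℕ) (c β : ℝ), 0 < c → 0 < β →
      MicX (XP4 K' 1 (fun _ => True) x') (Qc c β) (fun B => B = n + 2) (n - 1 + 1) K' h)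
    (hQ : ∀ (c β : ℝ) (o : Od n) (g : ℝ) (gam : ℕ → ℝ), 0 < c → 0 < β →
      As c o g → β ≤ slN hn P P' o (n - 1) g - 1 →
      (∀ l, 1 ≤ l → l ≤ n - 1 + 1 → gam l = max 0 (slN hn P P' o (l - 1) g - 1)) →
      Qc c β (fun _ => 1) gam)
    (hh : 0 < h) (hh1 : h ≤ 1) :
    NoKd H (kpRg H hTop hF hρ h As) (HypP _ x') := by
  intro p hp κ kd x R c β h' M hc hβ hK hy
  have hI' := isK_mono p.cell kd c β h' M x
  have hsub := isK_sub p.cell kd c β h' M x
  refine cls_mic H hh hh1 hp hy.1 hy.2.1 hc hβ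
    (fun ε' hε' => (hK.Φ ε' hε').mono fun q h => h.row)
    (X := fun K' => XP4 K' 1 (fun _ => True) x')
    (fun K' => xP4_mono K' 1 _ x') (hQc c β) (fun K' => hP K' c β hc hβ) (fun q ε K₀ hq => ?_)
    fun K₀ K' s₁ sh hK₀ hK' W her hWs => ?_
  · obtain ⟨-, e2⟩ := gamS_tar H hq hβ K₀
    exact hQ c β _ q.g _ hc hβ (hK.A ε q hq) e2 fun l l1 l2 => gamS_kit H hq K₀ l1 l2
  · have hfc := hy.2.2 K₀ K' s₁ sh hK₀ hK'
    refine ext_P hI' H.tmh ((kitN H p K₀).kit.setW W her)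
      (kit_cel H hp (kd := kd) (h' := h') (M := M) hc hβ x K₀) hK'
      (be := fun q => bi P' (show Od n from q.k.2).2)
      (P := fun q => PB (show Od n from q.k.2).2) (fun q => H.thb _)
      (fun q l hl a w _ _ _ => (kit_Lb H q hl a w).le)
      (fun l hl ε' hε' => ?_) le_rfl ?_
    · rcases Nat.lt_or_ge l (n - 1) with hl' | hl'
      · refine ((hK.Φ ε' hε').and hI' (EvP.self _ one_pos)).mono fun q hq z hz => ?_
        obtain ⟨hΦ, hq⟩ := hq
        have hr := hq.is.r0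
        have h1 := hΦ.rgh l hl' (inR_univ hl')
        have h2 : ∀ a w : ℝ, 0 ≤ w → w ≤ a → a ≤ 1 →
            bet (PB (show Od n from q.k.2).2) (cc hn (show Od n from q.k.2).1.1) l a w ≤ 1 :=
          fun a w k1 k2 k3 => (H.thb _).up _ a w k1 k2 k3
        have h3 := box_le h2 hr hq.is.g0 hq.is.g1 h1 (mul_pos hε' hr).le hz
        have h4 : (kitN H p K₀).kit.L q l = iso (dgN hn P P' (show Od n from q.k.2) l) := by
          show iso ((kitN H p K₀).Dg q l) = _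
          rw [kit_dg H q l]
        show Nw (bet (PB (show Od n from q.k.2).2) (cc hn (show Od n from q.k.2).1.1) l) z ≤
          Nw ((kitN H p K₀).kit.L q l) z + ε' * q.r
        rw [h4]
        exact h3
      · obtain rfl : l = n - 1 := by omega
        exact (kit_thr H ε' hε').sub hsub
    · obtain ⟨C₄, h1⟩ := hfc
      exact ⟨C₄, fun C₁ hC₁ B _ hB M' => by
        subst hB
        exact (h1 C₁ hC₁ M').mono fun N θ q h2 => h2.setW (hWs q N M' θ)
          fun _ _ _ _ _ _ h3 => h3⟩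

/-- The slope of the target is smaller than `3`. -/
def SlI (hn : 2 ≤ n) (P : ℝ → ℝ → ℝ) (P' : ℕ → List (Fin n) × Fin n → ℝ → ℝ → ℝ) (c : ℝ)
    (o : Od n) (g : ℝ) : Prop :=
  slN hn P P' o (n - 1) g ≤ 3 - c

theorem slI_at {o : Od n} {g : ℝ} (h3 : slN hn P P' o (n - 1) g < 3) :
    ∃ c : ℝ, 0 < c ∧ ∀ c' : ℝ, 0 < c' → c' ≤ c → SlI hn P P' c' o g :=
  ⟨3 - slN hn P P' o (n - 1) g, by linarith, fun c' _ hc => by unfold SlI; linarith⟩

/-- The conditions for the slopes of P4I. -/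
theorem qI_of {R : ℕ → Prop} {c β : ℝ} {o : Od n} {g : ℝ} {gam : ℕ → ℝ} (hβ : 0 < β)
    (hA : SlI hn P P' c o g) (e2 : β ≤ slN hn P P' o (n - 1) g - 1)
    (hgam : ∀ l, 1 ≤ l → l ≤ n - 1 + 1 → gam l = max 0 (slN hn P P' o (l - 1) g - 1))
    (hR : ∀ l, 1 ≤ l → l < n - 1 + 1 → ¬ R l → 2 ≤ slN hn P P' o (l - 1) g) :
    QI R (n - 1 + 1) (min c 1) (fun _ => 1) gam := by
  have e1 := hgam (n - 1 + 1) (by omega) le_rfl
  rw [Nat.add_sub_cancel, max_eq_right (by linarith)] at e1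
  unfold SlI at hA
  refine ⟨fun _ _ _ => rfl, fun l l1 l2 h3 => ?_, ?_⟩
  · rw [hgam l l1 l2.le]
    have h4 := hR l l1 l2 h3
    refine (min_le_right _ _).trans ?_
    rw [max_eq_right (by linarith)]
    linarith
  · rw [e1]
    rcases le_total (slN hn P P' o (n - 1) g - 1) 1 with h4 | h4
    · rw [min_eq_left h4]
      linarith [min_le_right c 1]
    · rw [min_eq_right h4]
      linarith [min_le_left c 1]

variable {H} in
/-- **No boxes, all coordinates are rough**, by P4I. -/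
theorem nok_RI {x' : ℝ} (hP : ∀ (K' : ℕ) (R : ℕ → Prop) (c : ℝ), 0 < c → MicX (XP4 K' 1 R x')
      (QI R (n - 1 + 1) c) (fun B => B = n + 2) (n - 1 + 1) K' h)
    (hh : 0 < h) (hh1 : h ≤ 1) :
    NoKd H (kpRg H hTop hF hρ h (SlI hn P P')) (HypP _ x') :=
  nok_Rg (Qc := fun c _ => QI (fun _ => True) (n - 1 + 1) (min c 1))
    (fun _ _ => qI_cl _ (by omega) _) (fun K' c β hc _ => hP K' _ _ (lt_min hc one_pos))
    (fun c β o g gam _ hβ hA e2 hgam => qI_of hβ hA e2 hgam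
      fun _ _ _ h3 => absurd trivial h3) hh hh1

/-- The slopes of P4I, the coordinate `l₀` has labels with gain. -/
def SlCI (hn : 2 ≤ n) (P : ℝ → ℝ → ℝ) (P' : ℕ → List (Fin n) × Fin n → ℝ → ℝ → ℝ) (c : ℝ)
    (l₀ : ℕ) (o : Od n) (g : ℝ) : Prop :=
  2 ≤ slN hn P P' o l₀ g ∧ SlI hn P P' c o g

variable {H} in
/-- **No boxes, one coordinate has labels with gain**, by P4I. -/
theorem nok_CI {x' : ℝ} {PW : ℕ → List (Fin n) × Fin n → ℝ → ℝ → ℝ}
    (hPW : ∀ j, ThrOf (chsysB n none (P' j)) S (PW j))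
    (hP : ∀ (K' : ℕ) (R : ℕ → Prop) (c : ℝ), 0 < c → MicX (XP4 K' 1 R x')
      (QI R (n - 1 + 1) c) (fun B => B = n + 2) (n - 1 + 1) K' h)
    (hh : 0 < h) (hh1 : h ≤ 1) :
    NoKd H (kpC H hTop hF hρ h PW (SlCI hn P P')) (HypP _ x') :=
  nok_Cg hPW (Qc := fun c _ l₀ => QI (fun u => u ≠ l₀ + 1) (n - 1 + 1) (min c 1))
    (fun _ _ _ => qI_cl _ (by omega) _)
    (fun K' c β l₀ hc _ _ => hP K' _ _ (lt_min hc one_pos))
    (fun c β l₀ o g gam _ hβ _ hA e2 hgam => qI_of hβ hA.2 e2 hgam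
      fun l l1 l2 h3 => by
        have h4 : l = l₀ + 1 := by
          by_contra h5
          exact h3 h5
        rw [h4, Nat.add_sub_cancel]
        exact hA.1) hh hh1

variable {H} in
/-- **The windows with ties covered by P4I have no boxes.** -/
theorem noB_I (hh : 0 < h) (hh1 : h ≤ 1) {x : ℝ}
    (hI : ∀ (K' : ℕ) (R : ℕ → Prop) (c : ℝ), 0 < c → MicX (XP4 K' 1 R x)
      (QI R (n - 1 + 1) c) (fun B => B = n + 2) (n - 1 + 1) K' h)
    {PW : ℕ → List (Fin n) × Fin n → ℝ → ℝ → ℝ}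
    (hPW : ∀ j, ThrOf (chsysB n none (P' j)) S (PW j)) {X Y : Od n → ℝ → Prop}
    (hX : ExB H hTop hF hρ h X) (hY : FcB H hTop hF hρ h x Y) :
    NoB H hTop hF hρ h fun o g => (TieT hn P P' PB o g ∧ (slN hn P P' o (n - 1) g < 3 ∧
      ∃ l₀ < n - 1, ∀ l < n - 1, l ≠ l₀ → ThN hn P P' PB o l g)) ∧ (X o g ∧ Y o g) := by
  obtain ⟨ιE, fE, KE, hE, hcE⟩ := hX.and hY
  have nT := (nok_RI (H := H) (hTop := hTop) (hF := hF) (hρ := hρ) (x' := x) hI hh hh1).sum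
    (nok_CI (H := H) (hTop := hTop) (hF := hF) (hρ := hρ) (x' := x) hPW hI hh hh1)
  refine noB_of (nT.and KE) ?_ (CovK.and (fun o => ?_) hcE)
  · intro p hp κ kd y x' c β h₁ M hc hβ hK
    have hK' : OnK H KE p x'.2 c (IsK p.cell kd c β h₁ M y) :=
      ⟨fun ε q hq => (hK.A ε q hq).2, fun ε' hε' => (hK.Φ ε' hε').mono fun _ h => h.2⟩
    have h6 := hE p hp kd y x'.2 c β h₁ M hc hβ hK'
    rcases x' with ⟨x' | x', xE⟩ <;> exact h6
  filter_upwards [slo_two H hTop hF,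
      H.rgh_ae hTop hF (be := fun j => bi P' j) (PW := PB) H.thb, H.rgh_ae hTop hF hPW,
      H.gnW_ae hTop hF, H.dia_all H.pble hTop hF]
      with g ktwo krB krW kgn kdia R hrw hX
  obtain ⟨hT, h3, l₀, hl₀, hth⟩ := hX
  have ho := R.mem
  have hths := hT.ths
  by_cases hth₀ : ThN hn P P' PB o l₀ g
  · have hth' : ∀ l < n - 1, ThN hn P P' PB o l g := fun l hl => by
      by_cases h6 : l = l₀
      · rwa [h6]
      · exact hth l hl h6
    exact ⟨Sum.inl (), NumI.KndP.At.inl (kpRg_at H (slI_at h3) hrw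
      fun l hl => krB o ho l hl.le (hth' l hl))⟩
  obtain ⟨hsta, h2⟩ := ktwo o ho l₀ hl₀ (fun k hk => hths k (hk.trans hl₀)) (hths l₀ hl₀) hth₀
  have hrgh : ∀ l ≤ n - 1, l ≠ l₀ → Sml fun r d => Box7 g r fun a w =>
      bet (PW o.2) (cc hn o.1.1) l a w ≤ dgN hn P P' o l w + (a - w) + d := fun l hl hll => by
    refine krW o ho l hl ?_
    rcases hl.lt_or_eq with h6 | rfl
    · exact hth l h6 hll
    · have eL : LvL hn P P' o (n - 1) = P := by
        funext a w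
        exact LvL_top o a w
      rw [eL, LvT_top]
      exact hT.thin
  have hdif : DifferentiableAt ℝ (dgN hn P P' o l₀) g := by
    have h6 : dgN hn P P' o l₀ = fun a => LvL hn P P' o l₀ a a :=
      funext fun a => dgN_LvL o hl₀.le a
    rw [h6]
    exact (kdia o ho l₀ hl₀.le).1
  have hsta' : StaAt (bet (P' o.2) (cc hn o.1.1) l₀) g := by
    have h6 : LvL hn P P' o l₀ = bet (P' o.2) (cc hn o.1.1) l₀ := by
      funext a w
      exact LvL_lt o hl₀ a w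
    rwa [h6] at hsta
  have hcon := con_sml hl₀ hdif h2 hsta'
  have hgn := kgn o ho l₀ hl₀ (fun k hk => hth k (hk.trans hl₀) (by omega)) hsta h2
  obtain ⟨c, hc, hcI⟩ := slI_at (hn := hn) (P := P) (P' := P') h3
  exact ⟨Sum.inr ⟨l₀, hl₀⟩, NumI.KndP.At.inr (kpC_at (l₀ := ⟨l₀, hl₀⟩)
    ⟨c, hc, fun c' h1 h4 => ⟨h2, hcI c' h1 h4⟩⟩
    (srt_gs H.toPk hTop hF ho) hrw hrgh hcon hgn)⟩

variable {H} in
/-- **The windows with ties covered by P4, P5 and P4I have no boxes.** -/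
theorem noB_PI (hh : 0 < h) (hh1 : h ≤ 1) {x : ℝ}
    (h4 : ∀ (K' : ℕ) (R : ℕ → Prop) (c : ℝ), 0 < c → MicX (XP4 K' 1 R x)
      (QT R (n - 1 + 1) c) (fun B => B = n + 2) (n - 1 + 1) K' h)
    (h5 : ∀ (K' : ℕ) (R : ℕ → Prop), MicX (XP4 K' 1 R x)
      (Q5 R (n - 1 + 1)) (fun B => B = n + 2) (n - 1 + 1) K' h)
    (hI : ∀ (K' : ℕ) (R : ℕ → Prop) (c : ℝ), 0 < c → MicX (XP4 K' 1 R x)
      (QI R (n - 1 + 1) c) (fun B => B = n + 2) (n - 1 + 1) K' h)
    {PW : ℕ → List (Fin n) × Fin n → ℝ → ℝ → ℝ}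
    (hPW : ∀ j, ThrOf (chsysB n none (P' j)) S (PW j)) {X Y : Od n → ℝ → Prop}
    (hX : ExB H hTop hF hρ h X) (hY : FcB H hTop hF hρ h x Y) :
    NoB H hTop hF hρ h fun o g => (TieT hn P P' PB o g ∧ CovI hn P P' PB o g) ∧
      (X o g ∧ Y o g) :=
  ((noB_P hh hh1 h4 h5 hPW hX hY).or (noB_I hh hh1 hI hPW hX hY)).mono fun o =>
    Eventually.of_forall fun g _ hg => by
      rcases hg.1.2 with h6 | h6
      · exact Or.inl ⟨⟨hg.1.1, h6⟩, hg.2⟩
      · exact Or.inr ⟨⟨hg.1.1, h6⟩, hg.2⟩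

end Pool.PKG
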